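import Pool.Agent.MP_6b57c7_an.Geom

set_option autoImplicit false

open MvPolynomial ComplexConjugate

namespace Pool.Agent.RealPartL1

/-- functions `c` for which `c ⟨z,ζ⟩^m` is nearly holomorphic -/
def Appr (c : V → ℂ) : Prop :=
  ∃ (B K : ℝ) (d : ℕ), 0 ≤ B ∧ 0 ≤ K ∧ (∀ z ∈ S, ‖c z‖ ≤ B) ∧
    ∀ ζ ∈ S, ∀ m, d < m → ∃ h : MvPolynomial (Fin 2) ℂ, constantCoeff h = 0 ∧
      ∀ z ∈ S, ‖c z * ip z ζ ^ m - eval z h‖ ≤
        K * (‖ip z ζ‖ ^ (m - d) * Real.sqrt (1 - ‖ip z ζ‖ ^ 2))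

theorem const_ipP (ζ : V) : constantCoeff (ipP ζ) = 0 := by
  simp [ipP]

theorem Appr.one : Appr (fun _ => 1) := by
  refine ⟨1, 0, 0, zero_le_one, le_refl _, by simp, ?_⟩
  intro ζ _ m hm
  refine ⟨ipP ζ ^ m, ?_, ?_⟩
  · rw [map_pow, const_ipP, zero_pow hm.ne']
  · intro z _
    rw [map_pow, eval_ipP]
    simp

theorem Appr.add {c c' : V → ℂ} (h : Appr c) (h' : Appr c') : Appr (fun z => c z + c' z) := by
  obtain ⟨B, K, d, hB, hK, hb, hh⟩ := h
  obtain ⟨B', K', d', hB', hK', hb', hh'⟩ := h'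
  refine ⟨B + B', K + K', max d d', by positivity, by positivity, ?_, ?_⟩
  · intro z hz
    exact (norm_add_le _ _).trans (add_le_add (hb z hz) (hb' z hz))
  · intro ζ hζ m hm
    obtain ⟨p, hp0, hp⟩ := hh ζ hζ m (lt_of_le_of_lt (le_max_left _ _) hm)
    obtain ⟨p', hp0', hp'⟩ := hh' ζ hζ m (lt_of_le_of_lt (le_max_right _ _) hm)
    refine ⟨p + p', by rw [map_add, hp0, hp0', add_zero], ?_⟩
    intro z hz
    have hl0 := norm_nonneg (ip z ζ)
    have hl1 := ip_le hz hζ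
    have e : (c z + c' z) * ip z ζ ^ m - eval z (p + p') =
        (c z * ip z ζ ^ m - eval z p) + (c' z * ip z ζ ^ m - eval z p') := by
      rw [map_add]; ring
    rw [e, add_mul]
    refine (norm_add_le _ _).trans (add_le_add ((hp z hz).trans ?_) ((hp' z hz).trans ?_))
    · apply mul_le_mul_of_nonneg_left _ hK
      apply mul_le_mul_of_nonneg_right _ (Real.sqrt_nonneg _)
      exact pow_le_pow_of_le_one hl0 hl1 (by omega)
    · apply mul_le_mul_of_nonneg_left _ hK'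
      apply mul_le_mul_of_nonneg_right _ (Real.sqrt_nonneg _)
      exact pow_le_pow_of_le_one hl0 hl1 (by omega)

theorem Appr.const_mul {c : V → ℂ} (h : Appr c) (a : ℂ) : Appr (fun z => c z * a) := by
  obtain ⟨B, K, d, hB, hK, hb, hh⟩ := h
  refine ⟨B * ‖a‖, K * ‖a‖, d, by positivity, by positivity, ?_, ?_⟩
  · intro z hz
    rw [norm_mul]
    exact mul_le_mul_of_nonneg_right (hb z hz) (norm_nonneg _)
  · intro ζ hζ m hm
    obtain ⟨p, hp0, hp⟩ := hh ζ hζ m hm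
    refine ⟨p * C a, by rw [map_mul, hp0, zero_mul], ?_⟩
    intro z hz
    have e : c z * a * ip z ζ ^ m - eval z (p * C a) = (c z * ip z ζ ^ m - eval z p) * a := by
      rw [map_mul, eval_C]; ring
    rw [e, norm_mul]
    calc ‖c z * ip z ζ ^ m - eval z p‖ * ‖a‖
        ≤ (K * (‖ip z ζ‖ ^ (m - d) * Real.sqrt (1 - ‖ip z ζ‖ ^ 2))) * ‖a‖ :=
          mul_le_mul_of_nonneg_right (hp z hz) (norm_nonneg _)
      _ = K * ‖a‖ * (‖ip z ζ‖ ^ (m - d) * Real.sqrt (1 - ‖ip z ζ‖ ^ 2)) := by ring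

theorem Appr.mul_X {c : V → ℂ} (h : Appr c) (i : Fin 2) : Appr (fun z => c z * z i) := by
  obtain ⟨B, K, d, hB, hK, hb, hh⟩ := h
  refine ⟨B, K, d, hB, hK, ?_, ?_⟩
  · intro z hz
    rw [norm_mul]
    calc ‖c z‖ * ‖z i‖ ≤ B * 1 :=
          mul_le_mul (hb z hz) (coord_le hz i) (norm_nonneg _) hB
      _ = B := mul_one B
  · intro ζ hζ m hm
    obtain ⟨p, hp0, hp⟩ := hh ζ hζ m hm
    refine ⟨p * X i, by rw [map_mul, hp0, zero_mul], ?_⟩
    intro z hz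
    have e : c z * z i * ip z ζ ^ m - eval z (p * X i) = (c z * ip z ζ ^ m - eval z p) * z i := by
      rw [map_mul, eval_X]; ring
    rw [e, norm_mul]
    have hnn : 0 ≤ K * (‖ip z ζ‖ ^ (m - d) * Real.sqrt (1 - ‖ip z ζ‖ ^ 2)) := by positivity
    calc ‖c z * ip z ζ ^ m - eval z p‖ * ‖z i‖
        ≤ (K * (‖ip z ζ‖ ^ (m - d) * Real.sqrt (1 - ‖ip z ζ‖ ^ 2))) * 1 :=
          mul_le_mul (hp z hz) (coord_le hz i) (norm_nonneg _) hnn
      _ = _ := mul_one _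

theorem Appr.mul_conjX {c : V → ℂ} (h : Appr c) (i : Fin 2) : Appr (fun z => c z * conj (z i)) := by
  obtain ⟨B, K, d, hB, hK, hb, hh⟩ := h
  refine ⟨B, B + K, d + 1, hB, by positivity, ?_, ?_⟩
  · intro z hz
    rw [norm_mul, Complex.norm_conj]
    calc ‖c z‖ * ‖z i‖ ≤ B * 1 :=
          mul_le_mul (hb z hz) (coord_le hz i) (norm_nonneg _) hB
      _ = B := mul_one B
  · intro ζ hζ m hm
    obtain ⟨p, hp0, hp⟩ := hh ζ hζ (m - 1) (by omega)
    refine ⟨p * C (conj (ζ i)), by rw [map_mul, hp0, zero_mul], ?_⟩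
    intro z hz
    have hl0 := norm_nonneg (ip z ζ)
    have hl1 := ip_le hz hζ
    have hpow : ip z ζ ^ m = ip z ζ ^ (m - 1) * ip z ζ := by
      rw [← pow_succ]; congr 1; omega
    have e : c z * conj (z i) * ip z ζ ^ m - eval z (p * C (conj (ζ i))) =
        c z * ip z ζ ^ (m - 1) * (conj (z i) * ip z ζ - conj (ζ i)) +
          (c z * ip z ζ ^ (m - 1) - eval z p) * conj (ζ i) := by
      rw [map_mul, eval_C, hpow]; ring
    rw [e]
    refine (norm_add_le _ _).trans ?_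
    rw [add_mul]
    have hsq := Real.sqrt_nonneg (1 - ‖ip z ζ‖ ^ 2)
    apply add_le_add
    · rw [norm_mul, norm_mul, norm_pow, mul_assoc]
      apply mul_le_mul (hb z hz) _ (by positivity) hB
      apply mul_le_mul _ (key_coord hz hζ i) (norm_nonneg _) (by positivity)
      exact pow_le_pow_of_le_one hl0 hl1 (by omega)
    · rw [norm_mul, Complex.norm_conj]
      have e2 : m - 1 - d = m - (d + 1) := by omega
      have hnn : 0 ≤ K * (‖ip z ζ‖ ^ (m - (d + 1)) * Real.sqrt (1 - ‖ip z ζ‖ ^ 2)) := by positivity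
      have := hp z hz
      rw [e2] at this
      calc ‖c z * ip z ζ ^ (m - 1) - eval z p‖ * ‖ζ i‖
          ≤ (K * (‖ip z ζ‖ ^ (m - (d + 1)) * Real.sqrt (1 - ‖ip z ζ‖ ^ 2))) * 1 :=
            mul_le_mul this (coord_le hζ i) (norm_nonneg _) hnn
        _ = _ := mul_one _

theorem Appr.mul_poly (p : MvPolynomial (Fin 2) ℂ) :
    ∀ {c : V → ℂ}, Appr c → Appr (fun z => c z * eval z p) := by
  induction p using MvPolynomial.induction_on with
  | C a => intro c h; simpa using h.const_mul a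
  | add p q hp hq =>
    intro c h
    have := (hp h).add (hq h)
    simpa [mul_add] using this
  | mul_X p i hp =>
    intro c h
    have := (hp h).mul_X i
    simpa [mul_assoc] using this

theorem Appr.mul_conj_poly (p : MvPolynomial (Fin 2) ℂ) :
    ∀ {c : V → ℂ}, Appr c → Appr (fun z => c z * conj (eval z p)) := by
  induction p using MvPolynomial.induction_on with
  | C a => intro c h; simpa using h.const_mul (conj a)
  | add p q hp hq =>
    intro c h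
    have := (hp h).add (hq h)
    simpa [mul_add] using this
  | mul_X p i hp =>
    intro c h
    have := (hp h).mul_conjX i
    simpa [mul_assoc] using this

/-- the random polynomial -/
noncomputable def Gp (q : ℕ) (ρ : Fin q × Fin q → ℂ) : MvPolynomial (Fin 2) ℂ :=
  ∑ p, C (ρ p) * (C (1 / 64) * ipP (zeta (lat q p)) ^ (192 * q ^ 2))

theorem eval_Gp (q : ℕ) (ρ : Fin q × Fin q → ℂ) (z : V) :
    eval z (Gp q ρ) = ∑ p, ρ p * (1 / 64 * ip z (zeta (lat q p)) ^ (192 * q ^ 2)) := by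
  rw [Gp, map_sum]
  apply Finset.sum_congr rfl
  intro p _
  rw [map_mul, map_mul, map_pow, eval_C, eval_C, eval_ipP]

theorem ip_pow_bound {z ζ : V} (hz : z ∈ S) (hζ : ζ ∈ S) (n m d : ℕ) (h : 3 * n + d ≤ m) :
    ‖ip z ζ‖ ^ (m - d) * Real.sqrt (1 - ‖ip z ζ‖ ^ 2) ≤
      (‖ip z ζ‖ ^ 2) ^ n * Real.sqrt (1 / (n + 1)) := by
  have hl0 := norm_nonneg (ip z ζ)
  have hl1 := ip_le hz hζ
  have hl2 := ip_sq_le hz hζ
  have h1 : ‖ip z ζ‖ ^ (m - d) ≤ ‖ip z ζ‖ ^ (3 * n) := pow_le_pow_of_le_one hl0 hl1 (by omega)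
  have h2 : ‖ip z ζ‖ ^ (3 * n) = (‖ip z ζ‖ ^ 2) ^ n * ‖ip z ζ‖ ^ n := by
    rw [← pow_mul, ← pow_add]; congr 1; ring
  have h3 : ‖ip z ζ‖ ^ n * Real.sqrt (1 - ‖ip z ζ‖ ^ 2) ≤ Real.sqrt (1 / (n + 1)) := by
    apply Real.le_sqrt_of_sq_le
    rw [mul_pow, Real.sq_sqrt (by linarith), ← pow_mul, mul_comm n 2, pow_mul]
    set s := 1 - ‖ip z ζ‖ ^ 2 with hs
    have e : ‖ip z ζ‖ ^ 2 = 1 - s := by rw [hs]; ring
    rw [e]
    have hs0 : 0 ≤ s := by linarith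
    have hs1 : s ≤ 1 := by nlinarith [sq_nonneg ‖ip z ζ‖]
    have := pow_bound hs0 hs1 n
    rw [le_div_iff₀ (by positivity)]
    have hp0 : 0 ≤ (1 - s) ^ n := pow_nonneg (by linarith) _
    nlinarith
  calc ‖ip z ζ‖ ^ (m - d) * Real.sqrt (1 - ‖ip z ζ‖ ^ 2)
      ≤ ((‖ip z ζ‖ ^ 2) ^ n * ‖ip z ζ‖ ^ n) * Real.sqrt (1 - ‖ip z ζ‖ ^ 2) := by
        rw [← h2]; exact mul_le_mul_of_nonneg_right h1 (Real.sqrt_nonneg _)
    _ = (‖ip z ζ‖ ^ 2) ^ n * (‖ip z ζ‖ ^ n * Real.sqrt (1 - ‖ip z ζ‖ ^ 2)) := by ring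
    _ ≤ _ := mul_le_mul_of_nonneg_left h3 (by positivity)

theorem norm_Gp_le {q : ℕ} {ρ : Fin q × Fin q → ℂ} (hρ : ∀ p, ‖ρ p‖ ≤ 1) {z : V} (hz : z ∈ S) :
    ‖eval z (Gp q ρ)‖ ≤ 1 := by
  rw [eval_Gp]
  calc ‖∑ p, ρ p * (1 / 64 * ip z (zeta (lat q p)) ^ (192 * q ^ 2))‖
      ≤ ∑ p, ‖ρ p * (1 / 64 * ip z (zeta (lat q p)) ^ (192 * q ^ 2))‖ := norm_sum_le _ _
    _ ≤ ∑ p, 1 / 64 * (‖ip z (zeta (lat q p))‖ ^ 2) ^ (48 * q ^ 2) := by
        apply Finset.sum_le_sum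
        intro p _
        rw [norm_mul, norm_mul, norm_pow]
        have hn : ‖(1 / 64 : ℂ)‖ = 1 / 64 := by norm_num
        rw [hn]
        have h1 : ‖ip z (zeta (lat q p))‖ ^ (192 * q ^ 2) ≤ (‖ip z (zeta (lat q p))‖ ^ 2) ^ (48 * q ^ 2) := by
          rw [← pow_mul]
          exact pow_le_pow_of_le_one (norm_nonneg _) (ip_le hz (zeta_mem _)) (by nlinarith [Nat.zero_le (q ^ 2)])
        have h2 : 0 ≤ ‖ip z (zeta (lat q p))‖ ^ (192 * q ^ 2) := by positivity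
        have h3 := hρ p
        have h4 := norm_nonneg (ρ p)
        nlinarith
    _ = 1 / 64 * ∑ p, (‖ip z (zeta (lat q p))‖ ^ 2) ^ (48 * q ^ 2) := by rw [Finset.mul_sum]
    _ ≤ 1 / 64 * 64 := mul_le_mul_of_nonneg_left (sum_net hz) (by norm_num)
    _ = 1 := by norm_num

/-- `c G` is uniformly close to a holomorphic polynomial for large `q` -/
theorem Appr.eventually {c : V → ℂ} (h : Appr c) {η : ℝ} (hη : 0 < η) :
    ∀ᶠ q : ℕ in Filter.atTop, ∀ ρ : Fin q × Fin q → ℂ, (∀ p, ‖ρ p‖ ≤ 1) →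
      ∃ h : MvPolynomial (Fin 2) ℂ, constantCoeff h = 0 ∧
        ∀ z ∈ S, ‖c z * eval z (Gp q ρ) - eval z h‖ ≤ η := by
  obtain ⟨B, K, d, hB, hK, hb, hh⟩ := h
  have hlim : Filter.Tendsto (fun q : ℕ => K * Real.sqrt (1 / ((48 * q ^ 2 : ℕ) + 1 : ℝ))) Filter.atTop
      (nhds (K * Real.sqrt 0)) := by
    apply Filter.Tendsto.const_mul
    apply (Real.continuous_sqrt.tendsto 0).comp
    have h1 : Filter.Tendsto (fun n : ℕ => 1 / ((n : ℝ) + 1)) Filter.atTop (nhds 0) :=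
      tendsto_one_div_add_atTop_nhds_zero_nat
    have h2 : Filter.Tendsto (fun q : ℕ => 48 * q ^ 2) Filter.atTop Filter.atTop := by
      apply Filter.tendsto_atTop_mono (f := fun q : ℕ => q) _ Filter.tendsto_id
      intro q
      change q ≤ 48 * q ^ 2
      nlinarith [Nat.zero_le q]
    exact h1.comp h2
  rw [Real.sqrt_zero, mul_zero] at hlim
  have hev := hlim.eventually (gt_mem_nhds hη)
  filter_upwards [hev, Filter.eventually_gt_atTop (d + 1)] with q hq hqd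
  intro ρ hρ
  have hm : d < 192 * q ^ 2 := by nlinarith
  choose g hg0 hg using fun p : Fin q × Fin q => hh (zeta (lat q p)) (zeta_mem _) (192 * q ^ 2) hm
  refine ⟨∑ p, C (ρ p) * (C (1 / 64) * g p), ?_, ?_⟩
  · rw [map_sum]
    apply Finset.sum_eq_zero
    intro p _
    rw [map_mul, map_mul, hg0, mul_zero, mul_zero]
  · intro z hz
    rw [eval_Gp, map_sum, Finset.mul_sum, ← Finset.sum_sub_distrib]
    calc ‖∑ p, (c z * (ρ p * (1 / 64 * ip z (zeta (lat q p)) ^ (192 * q ^ 2))) -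
            eval z (C (ρ p) * (C (1 / 64) * g p)))‖
        ≤ ∑ p, ‖c z * (ρ p * (1 / 64 * ip z (zeta (lat q p)) ^ (192 * q ^ 2))) -
            eval z (C (ρ p) * (C (1 / 64) * g p))‖ := norm_sum_le _ _
      _ ≤ ∑ p, 1 / 64 * (K * Real.sqrt (1 / ((48 * q ^ 2 : ℕ) + 1 : ℝ))) * (‖ip z (zeta (lat q p))‖ ^ 2) ^ (48 * q ^ 2) := by
          apply Finset.sum_le_sum
          intro p _
          have e : c z * (ρ p * (1 / 64 * ip z (zeta (lat q p)) ^ (192 * q ^ 2))) -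
              eval z (C (ρ p) * (C (1 / 64) * g p)) =
              ρ p * (1 / 64) * (c z * ip z (zeta (lat q p)) ^ (192 * q ^ 2) - eval z (g p)) := by
            rw [map_mul, map_mul, eval_C, eval_C]; ring
          rw [e, norm_mul, norm_mul]
          have hn : ‖(1 / 64 : ℂ)‖ = 1 / 64 := by norm_num
          rw [hn]
          have h1 := hg p z hz
          have h2 := ip_pow_bound hz (zeta_mem (lat q p)) (48 * q ^ 2) (192 * q ^ 2) d (by nlinarith)
          have h3 := hρ p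
          have h4 := norm_nonneg (ρ p)
          have h5 := norm_nonneg (c z * ip z (zeta (lat q p)) ^ (192 * q ^ 2) - eval z (g p))
          have h6 := h1.trans (mul_le_mul_of_nonneg_left h2 hK)
          calc ‖ρ p‖ * (1 / 64) * ‖c z * ip z (zeta (lat q p)) ^ (192 * q ^ 2) - eval z (g p)‖
              ≤ 1 * (1 / 64) * ‖c z * ip z (zeta (lat q p)) ^ (192 * q ^ 2) - eval z (g p)‖ := by
                gcongr
            _ ≤ 1 * (1 / 64) * (K * ((‖ip z (zeta (lat q p))‖ ^ 2) ^ (48 * q ^ 2) * Real.sqrt (1 / ((48 * q ^ 2 : ℕ) + 1)))) := by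
                gcongr
            _ = _ := by ring
      _ = 1 / 64 * (K * Real.sqrt (1 / ((48 * q ^ 2 : ℕ) + 1 : ℝ))) * ∑ p, (‖ip z (zeta (lat q p))‖ ^ 2) ^ (48 * q ^ 2) := by
          rw [Finset.mul_sum]
      _ ≤ 1 / 64 * (K * Real.sqrt (1 / ((48 * q ^ 2 : ℕ) + 1 : ℝ))) * 64 :=
          mul_le_mul_of_nonneg_left (sum_net hz) (by positivity)
      _ = K * Real.sqrt (1 / ((48 * q ^ 2 : ℕ) + 1 : ℝ)) := by ring
      _ ≤ η := hq.le

end Pool.Agent.RealPartL1
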