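import Pool.Agent.MP_6b57c7_an.Step

set_option autoImplicit false

open MvPolynomial ComplexConjugate MeasureTheory

namespace Pool.Agent.RealPartL1

/-- the closed unit ball of `ℂ²` -/
def Ball : Set V := {z : V | ∑ i, ‖z i‖ ^ 2 ≤ 1}

/-- radial projection -/
noncomputable def N (z : V) : V := fun i => z i / ((Real.sqrt (∑ j, ‖z j‖ ^ 2) : ℝ) : ℂ)

theorem N_mem {z : V} (hz : z ≠ 0) : N z ∈ S := by
  have hpos : 0 < ∑ j, ‖z j‖ ^ 2 := by
    obtain ⟨i, hi⟩ : ∃ i, z i ≠ 0 := by
      by_contra hcon
      push Not at hcon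
      exact hz (funext hcon)
    apply Finset.sum_pos' (fun j _ => by positivity)
    exact ⟨i, Finset.mem_univ _, by positivity⟩
  change ‖N z 0‖ ^ 2 + ‖N z 1‖ ^ 2 = 1
  simp only [N, norm_div, Complex.norm_real, Real.norm_eq_abs, div_pow, sq_abs,
    Real.sq_sqrt hpos.le]
  rw [← add_div, ← Fin.sum_univ_two (fun j => ‖z j‖ ^ 2), div_self hpos.ne']

theorem N_bdd (z : V) : N z ∈ Metric.closedBall (0 : V) 1 := by
  rw [mem_closedBall_zero_iff, pi_norm_le_iff_of_nonneg zero_le_one]
  intro i
  by_cases hz : z = 0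
  · rw [hz]; simp [N]
  · exact coord_le (N_mem hz) i

theorem N_meas : Measurable N := by
  unfold N
  rw [measurable_pi_iff]
  intro i
  fun_prop

theorem ball_bdd : Ball ⊆ Metric.closedBall (0 : V) 1 := by
  intro z hz
  rw [mem_closedBall_zero_iff, pi_norm_le_iff_of_nonneg zero_le_one]
  intro i
  have h1 : ‖z i‖ ^ 2 ≤ ∑ i, ‖z i‖ ^ 2 :=
    Finset.single_le_sum (f := fun i => ‖z i‖ ^ 2) (fun j _ => by positivity) (Finset.mem_univ i)
  have h2 : ‖z i‖ ^ 2 ≤ 1 := h1.trans hz
  have h3 := norm_nonneg (z i)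
  nlinarith

theorem ball_closed : IsClosed Ball := by
  apply isClosed_le _ continuous_const
  fun_prop

theorem ball_fin : volume Ball < ⊤ :=
  lt_of_le_of_lt (measure_mono ball_bdd) (isCompact_closedBall _ _).measure_lt_top

/-- open subset where growth happens -/
def U : Set V := {z : V | ∑ i, ‖z i‖ ^ 2 < 1 ∧ z 0 ≠ 0 ∧ 0 < (z 1 / z 0).re ∧ (z 1 / z 0).re < 1 / 2 ∧
  0 < (z 1 / z 0).im ∧ (z 1 / z 0).im < 1 / 2}

theorem U_sub : U ⊆ Ball := fun _ hz => le_of_lt hz.1

theorem U_open : IsOpen U := by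
  have h0 : IsOpen {z : V | z 0 ≠ 0} := isOpen_ne_fun (continuous_apply 0) continuous_const
  have hc : ContinuousOn (fun z : V => z 1 / z 0) {z : V | z 0 ≠ 0} :=
    ContinuousOn.div (by fun_prop) (by fun_prop) (fun z hz => hz)
  have hR : IsOpen {w : ℂ | 0 < w.re ∧ w.re < 1 / 2 ∧ 0 < w.im ∧ w.im < 1 / 2} := by
    refine (isOpen_lt continuous_const Complex.continuous_re).inter
      ((isOpen_lt Complex.continuous_re continuous_const).inter
      ((isOpen_lt continuous_const Complex.continuous_im).inter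
        (isOpen_lt Complex.continuous_im continuous_const)))
  have h1 := hc.isOpen_inter_preimage h0 hR
  have h2 : IsOpen {z : V | ∑ i, ‖z i‖ ^ 2 < 1} := isOpen_lt (by fun_prop) continuous_const
  have h3 := h2.inter h1
  convert! h3 using 1

theorem U_nonempty : U.Nonempty := by
  refine ⟨![1 / 2, (1 / 2) * (1 / 4 + 1 / 4 * Complex.I)], ?_, ?_, ?_⟩
  · rw [Fin.sum_univ_two]
    simp only [Matrix.cons_val_zero, Matrix.cons_val_one, normsq]
    norm_num
  · norm_num
  · have : (![1 / 2, (1 / 2) * (1 / 4 + 1 / 4 * Complex.I)] : V) 1 /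
        (![1 / 2, (1 / 2) * (1 / 4 + 1 / 4 * Complex.I)] : V) 0 = 1 / 4 + 1 / 4 * Complex.I := by
      simp only [Matrix.cons_val_zero, Matrix.cons_val_one]
      field_simp
    rw [this]
    norm_num

theorem U_pos : 0 < volume U := U_open.measure_pos _ U_nonempty

theorem N_Om {z : V} (hz : z ∈ U) : N z ∈ Om := by
  obtain ⟨h0, h1, h2⟩ := hz
  have hz0 : z ≠ 0 := fun h => h1 (by rw [h]; rfl)
  have hpos : 0 < ∑ j, ‖z j‖ ^ 2 := by
    apply Finset.sum_pos' (fun j _ => by positivity)
    exact ⟨0, Finset.mem_univ _, by positivity⟩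
  have hs : ((Real.sqrt (∑ j, ‖z j‖ ^ 2) : ℝ) : ℂ) ≠ 0 := by
    rw [Complex.ofReal_ne_zero]
    exact (Real.sqrt_pos.2 hpos).ne'
  have e : N z 1 / N z 0 = z 1 / z 0 := by
    simp only [N]
    field_simp
  refine ⟨N_mem hz0, div_ne_zero h1 hs, ?_⟩
  rw [e]
  exact h2

theorem integrable_comp {g : V → ℝ} (hg : Continuous g) :
    IntegrableOn (fun z => g (N z)) Ball volume := by
  obtain ⟨B, hB⟩ := (isCompact_closedBall (0 : V) 1).exists_bound_of_continuousOn hg.continuousOn
  have : IsFiniteMeasure (volume.restrict Ball) := ⟨by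
    rw [Measure.restrict_apply_univ]; exact ball_fin⟩
  refine Integrable.of_bound ((hg.measurable.comp N_meas).aestronglyMeasurable) B ?_
  exact Filter.Eventually.of_forall (fun z => hB _ (N_bdd z))

theorem ae_ne_zero : ∀ᵐ z ∂(volume.restrict Ball), z ≠ (0 : V) := by
  apply ae_restrict_of_ae
  exact Measure.ae_ne volume (0 : V)

theorem main (M : ℝ) (hM : ∀ p : MvPolynomial (Fin 2) ℂ, (constantCoeff p).im = 0 →
      ∫ z in Ball, ‖eval (N z) p‖ ≤ M * ∫ z in Ball, |(eval (N z) p).re|) : False := by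
  have hfinm : IsFiniteMeasure (volume.restrict Ball) := ⟨by
    rw [Measure.restrict_apply_univ]; exact ball_fin⟩
  set M' := max M 0 with hM'
  have hM0 : 0 ≤ M' := le_max_right _ _
  set μ := (volume Ball).toReal with hμ
  have hμ0 : 0 ≤ μ := ENNReal.toReal_nonneg
  set u := (volume U).toReal with hu
  have hu0 : 0 < u := ENNReal.toReal_pos U_pos.ne'
    (lt_of_le_of_lt (measure_mono U_sub) ball_fin).ne
  have hconst : ∀ c : ℝ, ∫ _ in Ball, c = μ * c := by
    intro c
    rw [setIntegral_const, smul_eq_mul, Measure.real]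
  have key : ∀ k : ℕ, Real.sqrt (2 * c₀ * k) * u ≤ (2 * M' + 1) * μ := by
    intro k
    obtain ⟨ι, hι, hne, F, f, hcont, happr, hpos, hcc, herr, hsum, hgrow⟩ := exists_state k
    have hnpos : (0 : ℝ) < Fintype.card ι := by exact_mod_cast Fintype.card_pos
    have hpow : (0 : ℝ) < (1 / 2) ^ k := by positivity
    have hFint : ∀ i, IntegrableOn (fun z => ‖F i (N z)‖) Ball volume := fun i =>
      integrable_comp (g := fun z => ‖F i z‖) ((hcont i).norm)
    have hFre : ∀ i, IntegrableOn (fun z => (F i (N z)).re) Ball volume := fun i =>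
      integrable_comp (g := fun z => (F i z).re) (Complex.continuous_re.comp (hcont i))
    have hfint : ∀ i, IntegrableOn (fun z => ‖eval (N z) (f i)‖) Ball volume := fun i =>
      integrable_comp (g := fun z => ‖eval z (f i)‖) (MvPolynomial.continuous_eval (f i)).norm
    have hfre : ∀ i, IntegrableOn (fun z => |(eval (N z) (f i)).re|) Ball volume := fun i =>
      integrable_comp (g := fun z => |(eval z (f i)).re|)
        ((Complex.continuous_re.comp (MvPolynomial.continuous_eval (f i))).abs)
    have hone : IntegrableOn (fun _ : V => (1 : ℝ)) Ball volume := integrable_const _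
    -- bound for each i
    have hi : ∀ i, ∫ z in Ball, ‖F i (N z)‖ ≤
        M' * (∫ z in Ball, (F i (N z)).re) + (M' + 1) * μ := by
      intro i
      have h1 : ∫ z in Ball, ‖F i (N z)‖ ≤ ∫ z in Ball, (‖eval (N z) (f i)‖ + 1) := by
        apply integral_mono_ae (hFint i) ((hfint i).add hone)
        filter_upwards [ae_ne_zero] with z hz
        have h2 := herr i (N z) (N_mem hz)
        have h3 : ‖F i (N z)‖ ≤ ‖F i (N z) - eval (N z) (f i)‖ + ‖eval (N z) (f i)‖ := by
          have := norm_add_le (F i (N z) - eval (N z) (f i)) (eval (N z) (f i))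
          rwa [sub_add_cancel] at this
        change ‖F i (N z)‖ ≤ ‖eval (N z) (f i)‖ + 1
        linarith
      have h2 : ∫ z in Ball, |(eval (N z) (f i)).re| ≤ ∫ z in Ball, ((F i (N z)).re + 1) := by
        apply integral_mono_ae (hfre i) ((hFre i).add hone)
        filter_upwards [ae_ne_zero] with z hz
        have h2 := herr i (N z) (N_mem hz)
        have h3 := hpos i (N z) (N_mem hz)
        have h4 := Complex.abs_re_le_norm (F i (N z) - eval (N z) (f i))
        rw [Complex.sub_re] at h4
        have h5 := abs_le.1 (h4.trans h2)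
        change |(eval (N z) (f i)).re| ≤ (F i (N z)).re + 1
        rw [abs_le]
        constructor <;> linarith
      rw [integral_add (hfint i) hone, hconst, mul_one] at h1
      rw [integral_add (hFre i) hone, hconst, mul_one] at h2
      have h3 := hM (f i) (by rw [hcc]; rfl)
      have h4 : 0 ≤ ∫ z in Ball, |(eval (N z) (f i)).re| := by positivity
      have h5 : M * ∫ z in Ball, |(eval (N z) (f i)).re| ≤ M' * ∫ z in Ball, |(eval (N z) (f i)).re| :=
        mul_le_mul_of_nonneg_right (le_max_left _ _) h4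
      have h6 := mul_le_mul_of_nonneg_left h2 hM0
      linarith
    have hs := Finset.sum_le_sum (fun i (_ : i ∈ Finset.univ) => hi i)
    rw [Finset.sum_add_distrib, ← Finset.mul_sum, Finset.sum_const, Finset.card_univ, nsmul_eq_mul,
      ← integral_finsetSum _ (fun i _ => hFint i), ← integral_finsetSum _ (fun i _ => hFre i)] at hs
    have h1 : ∫ z in Ball, ∑ i, (F i (N z)).re = μ * Fintype.card ι := by
      rw [← hconst]
      apply integral_congr_ae
      filter_upwards [ae_ne_zero] with z hz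
      exact hsum (N z) (N_mem hz)
    have h2 : u * (Fintype.card ι * Real.sqrt (2 * c₀ * k)) ≤ ∫ z in Ball, ∑ i, ‖F i (N z)‖ := by
      have h3 : ∫ z in U, ∑ i, ‖F i (N z)‖ ≤ ∫ z in Ball, ∑ i, ‖F i (N z)‖ := by
        apply setIntegral_mono_set
        · exact integrable_finsetSum _ (fun i _ => hFint i)
        · exact Filter.Eventually.of_forall (fun z => Finset.sum_nonneg (fun i _ => norm_nonneg _))
        · exact Filter.Eventually.of_forall U_sub
      refine le_trans ?_ h3
      have h4 : ∫ _ in U, (Fintype.card ι * Real.sqrt (2 * c₀ * k)) = u * (Fintype.card ι * Real.sqrt (2 * c₀ * k)) := by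
        rw [setIntegral_const, smul_eq_mul, Measure.real]
      rw [← h4]
      apply setIntegral_mono_on
      · exact integrableOn_const (lt_of_le_of_lt (measure_mono U_sub) ball_fin).ne
      · have hI : IntegrableOn (fun z => ∑ i, ‖F i (N z)‖) Ball volume :=
          integrable_finsetSum _ (fun i _ => hFint i)
        exact hI.mono_set U_sub
      · exact U_open.measurableSet
      · intro z hz
        have h5 := hgrow (N z) (N_Om hz)
        have h6 : 0 ≤ ∑ i, ‖F i (N z)‖ := Finset.sum_nonneg (fun i _ => norm_nonneg _)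
        have hc := c₀_pos
        apply le_of_pow_le_pow_left₀ two_ne_zero h6
        rw [mul_pow, Real.sq_sqrt (by positivity)]
        linarith
    rw [h1] at hs
    have h3 : Fintype.card ι * (Real.sqrt (2 * c₀ * k) * u) ≤ Fintype.card ι * ((2 * M' + 1) * μ) := by
      calc Fintype.card ι * (Real.sqrt (2 * c₀ * k) * u) = u * (Fintype.card ι * Real.sqrt (2 * c₀ * k)) := by ring
        _ ≤ _ := h2
        _ ≤ _ := hs
        _ = _ := by ring
    exact le_of_mul_le_mul_left h3 hnpos
  -- contradiction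
  have hc := c₀_pos
  obtain ⟨k, hk⟩ := exists_nat_gt (((2 * M' + 1) * μ / u) ^ 2 / (2 * c₀))
  have h1 := key k
  have h2 : (2 * M' + 1) * μ / u < Real.sqrt (2 * c₀ * k) := by
    apply Real.lt_sqrt_of_sq_lt
    rw [div_lt_iff₀ (by positivity)] at hk
    linarith
  rw [div_lt_iff₀ hu0] at h2
  linarith

end Pool.Agent.RealPartL1
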