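import Mathlib

set_option autoImplicit false

open MvPolynomial ComplexConjugate

namespace Pool.Agent.RealPartL1

/-- `ℂ²` -/
abbrev V := Fin 2 → ℂ

/-- the unit sphere of `ℂ²` -/
def S : Set V := {z | ‖z 0‖ ^ 2 + ‖z 1‖ ^ 2 = 1}

/-- hermitian product -/
noncomputable def ip (z ζ : V) : ℂ := z 0 * conj (ζ 0) + z 1 * conj (ζ 1)

/-- the linear form `z ↦ ⟨z, ζ⟩` as a polynomial -/
noncomputable def ipP (ζ : V) : MvPolynomial (Fin 2) ℂ := C (conj (ζ 0)) * X 0 + C (conj (ζ 1)) * X 1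

theorem eval_ipP (z ζ : V) : eval z (ipP ζ) = ip z ζ := by
  simp [ipP, ip, mul_comm]

theorem normsq (a : ℂ) : ‖a‖ ^ 2 = a.re ^ 2 + a.im ^ 2 := by
  rw [Complex.sq_norm, Complex.normSq_apply]; ring

theorem key_sum {z ζ : V} (hz : z ∈ S) (hζ : ζ ∈ S) :
    ‖conj (z 0) * ip z ζ - conj (ζ 0)‖ ^ 2 + ‖conj (z 1) * ip z ζ - conj (ζ 1)‖ ^ 2 =
      1 - ‖ip z ζ‖ ^ 2 := by
  have h1 : ‖z 0‖ ^ 2 + ‖z 1‖ ^ 2 = 1 := hz
  have h2 : ‖ζ 0‖ ^ 2 + ‖ζ 1‖ ^ 2 = 1 := hζ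
  rw [normsq, normsq] at h1 h2
  simp only [normsq, ip, Complex.sub_re, Complex.sub_im, Complex.mul_re, Complex.mul_im,
    Complex.add_re, Complex.add_im, Complex.conj_re, Complex.conj_im]
  set a := (z 0).re
  set b := (z 0).im
  set c := (z 1).re
  set d := (z 1).im
  set p := (ζ 0).re
  set q := (ζ 0).im
  set r := (ζ 1).re
  set s := (ζ 1).im
  linear_combination ((a * p + b * q + (c * r + d * s)) ^ 2 + (b * p - a * q + (d * r - c * s)) ^ 2) * h1 + h2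

theorem ip_sq_le {z ζ : V} (hz : z ∈ S) (hζ : ζ ∈ S) : ‖ip z ζ‖ ^ 2 ≤ 1 := by
  have := key_sum hz hζ
  nlinarith [sq_nonneg ‖conj (z 0) * ip z ζ - conj (ζ 0)‖, sq_nonneg ‖conj (z 1) * ip z ζ - conj (ζ 1)‖]

theorem ip_le {z ζ : V} (hz : z ∈ S) (hζ : ζ ∈ S) : ‖ip z ζ‖ ≤ 1 := by
  have := ip_sq_le hz hζ
  have h0 := norm_nonneg (ip z ζ)
  nlinarith

theorem key_coord {z ζ : V} (hz : z ∈ S) (hζ : ζ ∈ S) (i : Fin 2) :
    ‖conj (z i) * ip z ζ - conj (ζ i)‖ ≤ Real.sqrt (1 - ‖ip z ζ‖ ^ 2) := by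
  apply Real.le_sqrt_of_sq_le
  have := key_sum hz hζ
  fin_cases i
  · have h := sq_nonneg ‖conj (z 1) * ip z ζ - conj (ζ 1)‖
    simp only [Fin.zero_eta]
    linarith
  · have h := sq_nonneg ‖conj (z 0) * ip z ζ - conj (ζ 0)‖
    simp only [Fin.mk_one]
    linarith

theorem coord_le {z : V} (hz : z ∈ S) (i : Fin 2) : ‖z i‖ ≤ 1 := by
  have h1 : ‖z 0‖ ^ 2 + ‖z 1‖ ^ 2 = 1 := hz
  have h0 := norm_nonneg (z 0)
  have h0' := norm_nonneg (z 1)
  fin_cases i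
  · simp only [Fin.zero_eta]; nlinarith
  · simp only [Fin.mk_one]; nlinarith

/-! ### elementary bounds -/

theorem pow_bound {s : ℝ} (h0 : 0 ≤ s) (h1 : s ≤ 1) (n : ℕ) : (1 - s) ^ n * (1 + n * s) ≤ 1 := by
  have hb : 1 + (n : ℝ) * s ≤ (1 + s) ^ n := one_add_mul_le_pow (by linarith) n
  have hp : 0 ≤ (1 - s) ^ n := pow_nonneg (by linarith) n
  calc (1 - s) ^ n * (1 + n * s) ≤ (1 - s) ^ n * (1 + s) ^ n := mul_le_mul_of_nonneg_left hb hp
    _ = ((1 - s) * (1 + s)) ^ n := by rw [mul_pow]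
    _ ≤ 1 := pow_le_one₀ (by nlinarith) (by nlinarith)

theorem pow_le_inv {s : ℝ} (h0 : 0 ≤ s) (h1 : s ≤ 1) (n : ℕ) : (1 - s) ^ n ≤ 1 / (1 + n * s) := by
  have hpos : 0 < 1 + (n : ℝ) * s := by positivity
  rw [le_div_iff₀ hpos]
  exact pow_bound h0 h1 n

/-- a bounded increasing potential -/
noncomputable def pot (t : ℝ) : ℝ := t / (1 + |t|)

theorem pot_le (t : ℝ) : pot t ≤ 1 := by
  unfold pot
  have : 0 < 1 + |t| := by positivity
  rw [div_le_one this]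
  linarith [le_abs_self t]

theorem neg_one_le_pot (t : ℝ) : -1 ≤ pot t := by
  unfold pot
  have : 0 < 1 + |t| := by positivity
  rw [le_div_iff₀ this]
  linarith [neg_abs_le t]

theorem pot_step (t : ℝ) : 1 / (1 + t ^ 2) ≤ 4 * (pot (t + 1) - pot t) := by
  unfold pot
  have hpos : 0 < 1 + t ^ 2 := by positivity
  rcases le_or_gt 0 t with ht | ht
  · rw [abs_of_nonneg ht, abs_of_nonneg (by linarith : (0 : ℝ) ≤ t + 1)]
    have h1 : 0 < 1 + t := by linarith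
    have h2 : 0 < 1 + (t + 1) := by linarith
    rw [div_sub_div _ _ h2.ne' h1.ne', ← mul_div_assoc, div_le_div_iff₀ hpos (by positivity)]
    nlinarith [sq_nonneg (t - 1), sq_nonneg t, mul_nonneg ht ht]
  rcases le_or_gt t (-1) with ht' | ht'
  · rw [abs_of_nonpos ht.le, abs_of_nonpos (by linarith : t + 1 ≤ 0)]
    have h1 : 0 < 1 + -t := by linarith
    have h2 : 0 < 1 + -(t + 1) := by linarith
    rw [div_sub_div _ _ h2.ne' h1.ne', ← mul_div_assoc, div_le_div_iff₀ hpos (by positivity)]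
    nlinarith [sq_nonneg (t + 1), sq_nonneg t, mul_nonneg (neg_nonneg.2 ht.le) (neg_nonneg.2 ht.le)]
  · rw [abs_of_nonpos ht.le, abs_of_nonneg (by linarith : (0 : ℝ) ≤ t + 1)]
    have h1 : 0 < 1 + -t := by linarith
    have h2 : 0 < 1 + (t + 1) := by linarith
    have h3 : (t + 1) / 2 ≤ (t + 1) / (1 + (t + 1)) := by
      apply div_le_div_of_nonneg_left (by linarith) h2 (by linarith)
    have h4 : t / (1 + -t) ≤ t / 2 := by
      rw [div_le_div_iff₀ h1 (by norm_num)]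
      nlinarith
    have h5 : 1 / (1 + t ^ 2) ≤ 1 := by
      rw [div_le_one hpos]; nlinarith [sq_nonneg t]
    linarith

theorem sum_pot (q : ℕ) (x : ℝ) : ∑ a ∈ Finset.range q, 1 / (1 + ((a : ℝ) - x) ^ 2) ≤ 8 := by
  have h : ∀ q : ℕ, ∑ a ∈ Finset.range q, 1 / (1 + ((a : ℝ) - x) ^ 2) ≤ 4 * (pot (q - x) - pot (-x)) := by
    intro q
    induction q with
    | zero => simp
    | succ q ih =>
      rw [Finset.sum_range_succ]
      have := pot_step ((q : ℝ) - x)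
      have e : ((q : ℝ) - x) + 1 = ((q + 1 : ℕ) : ℝ) - x := by push_cast; ring
      rw [e] at this
      linarith
  have h1 := h q
  have h2 := pot_le (q - x)
  have h3 := neg_one_le_pot (-x)
  linarith

theorem sum_pot_fin (q : ℕ) (x : ℝ) : ∑ a : Fin q, 1 / (1 + (x - (a : ℕ)) ^ 2) ≤ 8 := by
  have := sum_pot q x
  rw [← Fin.sum_univ_eq_sum_range (fun a => 1 / (1 + ((a : ℝ) - x) ^ 2))] at this
  refine le_trans (le_of_eq ?_) this
  apply Finset.sum_congr rfl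
  intro a _
  congr 2
  ring

/-! ### the net -/

/-- the point of the sphere with affine coordinate `w` -/
noncomputable def zeta (w : ℂ) : V :=
  ![((1 / Real.sqrt (1 + ‖w‖ ^ 2) : ℝ) : ℂ), w * ((1 / Real.sqrt (1 + ‖w‖ ^ 2) : ℝ) : ℂ)]

theorem sqrt_fact (w : ℂ) : (1 / Real.sqrt (1 + ‖w‖ ^ 2)) ^ 2 = 1 / (1 + ‖w‖ ^ 2) := by
  rw [div_pow, one_pow, Real.sq_sqrt (by positivity)]

theorem zeta_mem (w : ℂ) : zeta w ∈ S := by
  change ‖zeta w 0‖ ^ 2 + ‖zeta w 1‖ ^ 2 = 1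
  have h := sqrt_fact w
  have hpos : 0 < 1 + ‖w‖ ^ 2 := by positivity
  simp only [zeta, Matrix.cons_val_zero, Matrix.cons_val_one, norm_mul, Complex.norm_real,
    Real.norm_eq_abs, sq_abs, mul_pow]
  rw [h]
  field_simp

theorem one_sub_ip {z : V} (hz : z ∈ S) (w : ℂ) :
    1 - ‖ip z (zeta w)‖ ^ 2 = ‖z 1 - w * z 0‖ ^ 2 / (1 + ‖w‖ ^ 2) := by
  have h := sqrt_fact w
  have hpos : 0 < 1 + ‖w‖ ^ 2 := by positivity
  have e1 : ip z (zeta w) = (z 0 + z 1 * conj w) * ((1 / Real.sqrt (1 + ‖w‖ ^ 2) : ℝ) : ℂ) := by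
    simp only [ip, zeta, Matrix.cons_val_zero, Matrix.cons_val_one, map_mul, Complex.conj_ofReal]
    ring
  rw [e1, norm_mul, Complex.norm_real, Real.norm_eq_abs, mul_pow, sq_abs, h]
  have e2 : ‖z 0 + z 1 * conj w‖ ^ 2 + ‖z 1 - w * z 0‖ ^ 2 = 1 + ‖w‖ ^ 2 := by
    have h1 : ‖z 0‖ ^ 2 + ‖z 1‖ ^ 2 = 1 := hz
    rw [normsq, normsq] at h1
    simp only [normsq, Complex.sub_re, Complex.sub_im, Complex.mul_re, Complex.mul_im,
      Complex.add_re, Complex.add_im, Complex.conj_re, Complex.conj_im]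
    linear_combination (1 + w.re ^ 2 + w.im ^ 2) * h1
  rw [eq_div_iff hpos.ne', sub_mul, mul_assoc, one_div_mul_cancel hpos.ne']
  linarith

/-- lattice points -/
noncomputable def lat (q : ℕ) (p : Fin q × Fin q) : ℂ :=
  ⟨((p.1 : ℕ) : ℝ) / (2 * q), ((p.2 : ℕ) : ℝ) / (2 * q)⟩

theorem lat_sq_le {q : ℕ} (p : Fin q × Fin q) : ‖lat q p‖ ^ 2 ≤ 1 / 2 := by
  have hq : 0 < q := lt_of_le_of_lt (Nat.zero_le _) p.1.2
  have hq' : (0 : ℝ) < q := by exact_mod_cast hq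
  have h1 : ((p.1 : ℕ) : ℝ) ≤ q := by exact_mod_cast p.1.2.le
  have h2 : ((p.2 : ℕ) : ℝ) ≤ q := by exact_mod_cast p.2.2.le
  have a1 : ((p.1 : ℕ) : ℝ) / (2 * q) ≤ 1 / 2 := by
    rw [div_le_div_iff₀ (by positivity) (by norm_num)]; nlinarith
  have a2 : ((p.2 : ℕ) : ℝ) / (2 * q) ≤ 1 / 2 := by
    rw [div_le_div_iff₀ (by positivity) (by norm_num)]; nlinarith
  have b1 : 0 ≤ ((p.1 : ℕ) : ℝ) / (2 * q) := by positivity
  have b2 : 0 ≤ ((p.2 : ℕ) : ℝ) / (2 * q) := by positivity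
  rw [normsq]
  simp only [lat]
  nlinarith

theorem sum_net {q : ℕ} {z : V} (hz : z ∈ S) :
    ∑ p : Fin q × Fin q, (‖ip z (zeta (lat q p))‖ ^ 2) ^ (48 * q ^ 2) ≤ 64 := by
  rcases Nat.eq_zero_or_pos q with hq0 | hq
  · subst hq0; simp
  have hq' : (0 : ℝ) < q := by exact_mod_cast hq
  have h1 : ‖z 0‖ ^ 2 + ‖z 1‖ ^ 2 = 1 := hz
  have hs0 : ∀ p : Fin q × Fin q, 0 ≤ 1 - ‖ip z (zeta (lat q p))‖ ^ 2 := fun p => by
    have := ip_sq_le hz (zeta_mem (lat q p)); linarith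
  have hs1 : ∀ p : Fin q × Fin q, 1 - ‖ip z (zeta (lat q p))‖ ^ 2 ≤ 1 := fun p => by
    have := sq_nonneg ‖ip z (zeta (lat q p))‖; linarith
  rcases le_or_gt (1 / 4) (‖z 0‖ ^ 2) with hr | hr
  · have hz0 : z 0 ≠ 0 := by
      intro h; rw [h] at hr; norm_num at hr
    set x := z 1 / z 0 with hx
    have hterm : ∀ p : Fin q × Fin q, (‖ip z (zeta (lat q p))‖ ^ 2) ^ (48 * q ^ 2) ≤
        (1 / (1 + (2 * q * x.re - (p.1 : ℕ)) ^ 2)) * (1 / (1 + (2 * q * x.im - (p.2 : ℕ)) ^ 2)) := by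
      intro p
      set s := 1 - ‖ip z (zeta (lat q p))‖ ^ 2 with hs
      set A := 2 * q * x.re - (p.1 : ℕ) with hA
      set B := 2 * q * x.im - (p.2 : ℕ) with hB
      have hsval : (A ^ 2 + B ^ 2) / (24 * q ^ 2) ≤ s := by
        rw [hs, one_sub_ip hz]
        have e : z 1 - lat q p * z 0 = (x - lat q p) * z 0 := by
          rw [hx]; field_simp
        rw [e, norm_mul, mul_pow]
        have e2 : ‖x - lat q p‖ ^ 2 = (A ^ 2 + B ^ 2) / (4 * q ^ 2) := by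
          rw [normsq, Complex.sub_re, Complex.sub_im]
          simp only [lat, hA, hB]
          field_simp
          ring
        rw [e2]
        have hw := lat_sq_le p
        have hwpos : 0 < 1 + ‖lat q p‖ ^ 2 := by positivity
        rw [div_le_div_iff₀ (by positivity) hwpos]
        have hAB : 0 ≤ A ^ 2 + B ^ 2 := by positivity
        have : (A ^ 2 + B ^ 2) / (4 * q ^ 2) * ‖z 0‖ ^ 2 * (24 * q ^ 2) = 6 * ((A ^ 2 + B ^ 2) * ‖z 0‖ ^ 2) := by
          field_simp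
          ring
        rw [this]
        nlinarith [mul_le_mul_of_nonneg_left hw hAB, mul_le_mul_of_nonneg_left hr hAB]
      have e3 : ‖ip z (zeta (lat q p))‖ ^ 2 = 1 - s := by rw [hs]; ring
      rw [e3]
      have h48 : 48 * q ^ 2 = (24 * q ^ 2) * 2 := by ring
      rw [h48, pow_mul]
      have hp := pow_le_inv (hs0 p) (hs1 p) (24 * q ^ 2)
      rw [← hs] at hp
      have hn0 : 0 ≤ (1 - s) ^ (24 * q ^ 2) := pow_nonneg (by linarith [hs1 p]) _
      have hden : 1 + (A ^ 2 + B ^ 2) ≤ 1 + ((24 * q ^ 2 : ℕ) : ℝ) * s := by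
        push_cast
        rw [div_le_iff₀ (by positivity)] at hsval
        linarith
      have hp2 : (1 - s) ^ (24 * q ^ 2) ≤ 1 / (1 + (A ^ 2 + B ^ 2)) :=
        hp.trans (one_div_le_one_div_of_le (by positivity) hden)
      calc ((1 - s) ^ (24 * q ^ 2)) ^ 2 ≤ (1 / (1 + (A ^ 2 + B ^ 2))) ^ 2 := by
            apply pow_le_pow_left₀ hn0 hp2
        _ ≤ (1 / (1 + A ^ 2)) * (1 / (1 + B ^ 2)) := by
            rw [one_div_mul_one_div, div_pow, one_pow]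
            apply one_div_le_one_div_of_le (by positivity)
            nlinarith [sq_nonneg A, sq_nonneg B, mul_nonneg (sq_nonneg A) (sq_nonneg B),
              sq_nonneg (A ^ 2), sq_nonneg (B ^ 2)]
    calc ∑ p : Fin q × Fin q, (‖ip z (zeta (lat q p))‖ ^ 2) ^ (48 * q ^ 2)
        ≤ ∑ p : Fin q × Fin q, (1 / (1 + (2 * q * x.re - (p.1 : ℕ)) ^ 2)) *
            (1 / (1 + (2 * q * x.im - (p.2 : ℕ)) ^ 2)) := Finset.sum_le_sum (fun p _ => hterm p)
      _ = (∑ a : Fin q, 1 / (1 + (2 * q * x.re - (a : ℕ)) ^ 2)) *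
            (∑ b : Fin q, 1 / (1 + (2 * q * x.im - (b : ℕ)) ^ 2)) := by
          rw [Finset.sum_mul_sum, ← Finset.univ_product_univ, Finset.sum_product]
      _ ≤ 8 * 8 := by
          apply mul_le_mul (sum_pot_fin q _) (sum_pot_fin q _)
          · apply Finset.sum_nonneg; intro a _; positivity
          · norm_num
      _ = 64 := by norm_num
  · have hterm : ∀ p : Fin q × Fin q, (‖ip z (zeta (lat q p))‖ ^ 2) ^ (48 * q ^ 2) ≤ 1 / (8 * q ^ 2) := by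
      intro p
      set s := 1 - ‖ip z (zeta (lat q p))‖ ^ 2 with hs
      have hw := lat_sq_le p
      have hsval : 1 / 6 ≤ s := by
        rw [hs, one_sub_ip hz]
        have hwpos : 0 < 1 + ‖lat q p‖ ^ 2 := by positivity
        have ha : ‖z 1‖ ≤ ‖z 1 - lat q p * z 0‖ + ‖lat q p‖ * ‖z 0‖ := by
          have := norm_add_le (z 1 - lat q p * z 0) (lat q p * z 0)
          rw [sub_add_cancel, norm_mul] at this
          exact this
        set b := ‖lat q p‖ * ‖z 0‖ with hb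
        have hb0 : 0 ≤ b := by positivity
        have hb2 : b ^ 2 ≤ 1 / 8 := by
          rw [hb, mul_pow]
          nlinarith [sq_nonneg ‖lat q p‖, sq_nonneg ‖z 0‖]
        have hb3 : b ≤ 9 / 25 := by nlinarith
        have hz1 : 3 / 4 < ‖z 1‖ ^ 2 := by linarith
        have hz1' : 43 / 50 ≤ ‖z 1‖ := by
          have := norm_nonneg (z 1)
          nlinarith
        have hfin : 1 / 2 ≤ ‖z 1 - lat q p * z 0‖ := by linarith
        rw [le_div_iff₀ hwpos]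
        nlinarith
      have e3 : ‖ip z (zeta (lat q p))‖ ^ 2 = 1 - s := by rw [hs]; ring
      rw [e3]
      refine (pow_le_inv (hs0 p) (hs1 p) (48 * q ^ 2)).trans ?_
      apply one_div_le_one_div_of_le (by positivity)
      push_cast
      rw [← hs]
      nlinarith [mul_le_mul_of_nonneg_left hsval (by positivity : (0 : ℝ) ≤ 48 * q ^ 2)]
    calc ∑ p : Fin q × Fin q, (‖ip z (zeta (lat q p))‖ ^ 2) ^ (48 * q ^ 2)
        ≤ ∑ p : Fin q × Fin q, 1 / (8 * (q : ℝ) ^ 2) := Finset.sum_le_sum (fun p _ => hterm p)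
      _ = (q * q : ℕ) * (1 / (8 * (q : ℝ) ^ 2)) := by
          rw [Finset.sum_const, Finset.card_univ, Fintype.card_prod, Fintype.card_fin, nsmul_eq_mul]
      _ = 1 / 8 := by push_cast; field_simp
      _ ≤ 64 := by norm_num

/-- the good region -/
def Om : Set V := {z | z ∈ S ∧ z 0 ≠ 0 ∧ 0 < (z 1 / z 0).re ∧ (z 1 / z 0).re < 1 / 2 ∧
  0 < (z 1 / z 0).im ∧ (z 1 / z 0).im < 1 / 2}

theorem exists_near {q : ℕ} (hq : 0 < q) {z : V} (hz : z ∈ Om) :
    ∃ p : Fin q × Fin q, Real.exp (-192) ≤ (‖ip z (zeta (lat q p))‖ ^ 2) ^ (192 * q ^ 2) := by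
  obtain ⟨hzS, hz0, h1, h2, h3, h4⟩ := hz
  have hq' : (0 : ℝ) < q := by exact_mod_cast hq
  set x := z 1 / z 0 with hx
  have hj : ⌊2 * q * x.re⌋₊ < q := by
    rw [Nat.floor_lt (by positivity)]
    nlinarith
  have hk : ⌊2 * q * x.im⌋₊ < q := by
    rw [Nat.floor_lt (by positivity)]
    nlinarith
  refine ⟨(⟨_, hj⟩, ⟨_, hk⟩), ?_⟩
  set p : Fin q × Fin q := (⟨⌊2 * q * x.re⌋₊, hj⟩, ⟨⌊2 * q * x.im⌋₊, hk⟩) with hp
  set s := 1 - ‖ip z (zeta (lat q p))‖ ^ 2 with hs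
  have hs0 : 0 ≤ s := by
    have := ip_sq_le hzS (zeta_mem (lat q p)); linarith
  have f1 := Nat.floor_le (by positivity : 0 ≤ 2 * q * x.re)
  have f2 := Nat.lt_floor_add_one (2 * q * x.re)
  have f3 := Nat.floor_le (by positivity : 0 ≤ 2 * q * x.im)
  have f4 := Nat.lt_floor_add_one (2 * q * x.im)
  have hsv : s ≤ 1 / (2 * q ^ 2) := by
    rw [hs, one_sub_ip hzS]
    have e : z 1 - lat q p * z 0 = (x - lat q p) * z 0 := by
      rw [hx]; field_simp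
    have e2 : ‖x - lat q p‖ ^ 2 =
        ((2 * q * x.re - ⌊2 * q * x.re⌋₊) ^ 2 + (2 * q * x.im - ⌊2 * q * x.im⌋₊) ^ 2) / (4 * q ^ 2) := by
      rw [normsq, Complex.sub_re, Complex.sub_im]
      simp only [lat, hp]
      field_simp
      ring
    have e3 : ‖x - lat q p‖ ^ 2 ≤ 1 / (2 * q ^ 2) := by
      rw [e2, div_le_div_iff₀ (by positivity) (by positivity)]
      have g1 : (2 * q * x.re - ⌊2 * q * x.re⌋₊) ^ 2 ≤ 1 := by nlinarith
      have g2 : (2 * q * x.im - ⌊2 * q * x.im⌋₊) ^ 2 ≤ 1 := by nlinarith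
      nlinarith [sq_nonneg (q : ℝ)]
    have hz1 : ‖z 0‖ ^ 2 ≤ 1 := by
      have := coord_le hzS 0
      have h0 := norm_nonneg (z 0)
      nlinarith
    rw [e, norm_mul, mul_pow]
    have hwpos : 0 < 1 + ‖lat q p‖ ^ 2 := by positivity
    calc ‖x - lat q p‖ ^ 2 * ‖z 0‖ ^ 2 / (1 + ‖lat q p‖ ^ 2) ≤ ‖x - lat q p‖ ^ 2 * ‖z 0‖ ^ 2 := by
          apply div_le_self (by positivity)
          nlinarith [sq_nonneg ‖lat q p‖]
      _ ≤ ‖x - lat q p‖ ^ 2 * 1 := mul_le_mul_of_nonneg_left hz1 (by positivity)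
      _ ≤ 1 / (2 * q ^ 2) := by rw [mul_one]; exact e3
  have hsv2 : s ≤ 1 / 2 := by
    refine hsv.trans ?_
    apply one_div_le_one_div_of_le (by norm_num)
    have : (1 : ℝ) ≤ q := by exact_mod_cast hq
    nlinarith
  have e4 : ‖ip z (zeta (lat q p))‖ ^ 2 = 1 - s := by rw [hs]; ring
  rw [e4]
  have h5 : Real.exp (-(2 * s)) ≤ 1 - s := by
    rw [Real.exp_neg]
    rw [inv_le_comm₀ (Real.exp_pos _) (by linarith)]
    have := Real.add_one_le_exp (2 * s)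
    refine le_trans ?_ this
    rw [inv_le_iff_one_le_mul₀ (by linarith)]
    nlinarith
  calc Real.exp (-192) ≤ Real.exp (-(2 * s)) ^ (192 * q ^ 2) := by
        rw [← Real.exp_nat_mul]
        apply Real.exp_le_exp.2
        push_cast
        have : s * (2 * q ^ 2) ≤ 1 := by
          rw [← le_div_iff₀ (by positivity)]; exact hsv
        nlinarith
    _ ≤ (1 - s) ^ (192 * q ^ 2) := pow_le_pow_left₀ (Real.exp_pos _).le h5 _

end Pool.Agent.RealPartL1
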