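import Pool.Agent.MP_6b57c7_an.Appr

set_option autoImplicit false

open MvPolynomial ComplexConjugate

namespace Pool.Agent.RealPartL1

/-- fourth roots of unity -/
noncomputable def rt (k : ZMod 4) : ℂ := Complex.I ^ k.val

theorem rt_add_one (k : ZMod 4) : rt (k + 1) = Complex.I * rt k := by
  have : ∀ k : ZMod 4, (k + 1).val = k.val + 1 ∨ (k.val = 3 ∧ (k + 1).val = 0) := by decide
  rcases this k with h | ⟨h1, h2⟩
  · rw [rt, rt, h, pow_succ]; ring
  · rw [rt, rt, h1, h2]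
    rw [pow_zero, ← pow_succ']
    exact Complex.I_pow_four.symm

theorem rt_add_two (k : ZMod 4) : rt (k + 2) = - rt k := by
  have : (2 : ZMod 4) = 1 + 1 := by decide
  rw [this, ← add_assoc, rt_add_one, rt_add_one, ← mul_assoc, Complex.I_mul_I]
  ring

theorem norm_rt (k : ZMod 4) : ‖rt k‖ = 1 := by
  rw [rt, norm_pow, Complex.norm_I, one_pow]

section avg

variable {ι : Type} [Fintype ι] [DecidableEq ι] (g : ι → ℂ)

/-- random sum -/
noncomputable def RS (ε : ι → ZMod 4) : ℂ := ∑ p, rt (ε p) * g p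

theorem RS_add_one (ε : ι → ZMod 4) : RS g (ε + fun _ => 1) = Complex.I * RS g ε := by
  unfold RS
  rw [Finset.mul_sum]
  apply Finset.sum_congr rfl
  intro p _
  rw [Pi.add_apply, rt_add_one]; ring

theorem RS_add_two (ε : ι → ZMod 4) : RS g (ε + fun _ => 2) = - RS g ε := by
  unfold RS
  rw [← Finset.sum_neg_distrib]
  apply Finset.sum_congr rfl
  intro p _
  rw [Pi.add_apply, rt_add_two]; ring

theorem RS_flip (ε : ι → ZMod 4) (p₀ : ι) :
    RS g (ε + Pi.single p₀ 2) = RS g ε - 2 * (rt (ε p₀) * g p₀) := by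
  unfold RS
  rw [eq_sub_iff_add_eq]
  rw [Fintype.sum_eq_add_sum_compl p₀, Fintype.sum_eq_add_sum_compl p₀ (fun p => rt (ε p) * g p)]
  have h1 : ∑ i ∈ {p₀}ᶜ, rt ((ε + Pi.single p₀ 2 : ι → ZMod 4) i) * g i = ∑ i ∈ {p₀}ᶜ, rt (ε i) * g i := by
    apply Finset.sum_congr rfl
    intro i hi
    have : i ≠ p₀ := by simpa using hi
    rw [Pi.add_apply, Pi.single_eq_of_ne this, add_zero]
  rw [h1, Pi.add_apply, Pi.single_eq_same, rt_add_two]
  ring

theorem sum_RS : ∑ ε : ι → ZMod 4, RS g ε = 0 := by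
  have h := Equiv.sum_comp (Equiv.addRight (fun _ : ι => (2 : ZMod 4))) (fun ε => RS g ε)
  have h2 : ∑ ε : ι → ZMod 4, RS g ((Equiv.addRight (fun _ : ι => (2 : ZMod 4))) ε) =
      - ∑ ε : ι → ZMod 4, RS g ε := by
    rw [← Finset.sum_neg_distrib]
    apply Finset.sum_congr rfl
    intro ε _
    exact RS_add_two g ε
  rw [h2] at h
  have h3 : (2 : ℂ) * ∑ ε : ι → ZMod 4, RS g ε = 0 := by linear_combination -h
  simpa using h3

theorem sum_re (κ : ℂ) : ∑ ε : ι → ZMod 4, (κ * RS g ε).re = 0 := by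
  rw [← Complex.re_sum, ← Finset.mul_sum, sum_RS, mul_zero, Complex.zero_re]

theorem sum_im_sq (κ : ℂ) :
    ∑ ε : ι → ZMod 4, (κ * RS g ε).im ^ 2 = ∑ ε : ι → ZMod 4, (κ * RS g ε).re ^ 2 := by
  have h := Equiv.sum_comp (Equiv.addRight (fun _ : ι => (1 : ZMod 4))) (fun ε => (κ * RS g ε).im ^ 2)
  rw [← h]
  apply Finset.sum_congr rfl
  intro ε _
  have : (Equiv.addRight (fun _ : ι => (1 : ZMod 4))) ε = ε + fun _ => 1 := rfl
  rw [this, RS_add_one]
  have e : (κ * (Complex.I * RS g ε)).im = (κ * RS g ε).re := by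
    simp [Complex.mul_im, Complex.mul_re]
    try ring
  rw [e]

theorem sum_norm_sq (p₀ : ι) :
    (Fintype.card (ι → ZMod 4) : ℝ) * ‖g p₀‖ ^ 2 ≤ ∑ ε : ι → ZMod 4, ‖RS g ε‖ ^ 2 := by
  have h := Equiv.sum_comp (Equiv.addRight (Pi.single p₀ (2 : ZMod 4) : ι → ZMod 4)) (fun ε => ‖RS g ε‖ ^ 2)
  have h2 : ∀ ε : ι → ZMod 4, 2 * ‖g p₀‖ ^ 2 ≤
      ‖RS g ε‖ ^ 2 + ‖RS g ((Equiv.addRight (Pi.single p₀ (2 : ZMod 4) : ι → ZMod 4)) ε)‖ ^ 2 := by
    intro ε
    have : (Equiv.addRight (Pi.single p₀ (2 : ZMod 4) : ι → ZMod 4)) ε = ε + Pi.single p₀ 2 := rfl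
    rw [this, RS_flip]
    set a := rt (ε p₀) * g p₀ with ha
    have hn : ‖g p₀‖ = ‖a‖ := by rw [ha, norm_mul, norm_rt, one_mul]
    rw [hn]
    simp only [normsq, Complex.sub_re, Complex.sub_im, Complex.mul_re, Complex.mul_im,
      Complex.re_ofNat, Complex.im_ofNat]
    nlinarith [sq_nonneg ((RS g ε).re - a.re), sq_nonneg ((RS g ε).im - a.im)]
  have h3 := Finset.sum_le_sum (fun ε (_ : ε ∈ Finset.univ) => h2 ε)
  rw [Finset.sum_add_distrib, h, Finset.sum_const, Finset.card_univ, nsmul_eq_mul] at h3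
  linarith

theorem norm_one_add {ξ : ℂ} (h : ‖ξ‖ ≤ 1 / 2) : 1 + ξ.re + 3 / 10 * ξ.im ^ 2 ≤ ‖1 + ξ‖ := by
  have h1 : ‖1 + ξ‖ ^ 2 = (1 + ξ.re) ^ 2 + ξ.im ^ 2 := by
    rw [normsq]; simp
  have h2 : ξ.re ^ 2 + ξ.im ^ 2 ≤ 1 / 4 := by
    rw [← normsq]
    have := norm_nonneg ξ
    nlinarith
  have h3 : ξ.re ≤ 1 / 2 := by nlinarith [sq_nonneg ξ.im]
  have h4 : ξ.im ^ 2 ≤ 1 / 4 := by nlinarith [sq_nonneg ξ.re]
  have h5 := norm_nonneg (1 + ξ)
  by_contra hcon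
  push Not at hcon
  have h6 : ‖1 + ξ‖ ^ 2 < (1 + ξ.re + 3 / 10 * ξ.im ^ 2) ^ 2 := by
    apply pow_lt_pow_left₀ hcon h5 (by norm_num)
  rw [h1] at h6
  nlinarith [sq_nonneg ξ.im, mul_nonneg (sq_nonneg ξ.im) (sq_nonneg ξ.im),
    mul_nonneg (sq_nonneg ξ.im) (sub_nonneg.2 h3), mul_nonneg (sq_nonneg ξ.im) (sub_nonneg.2 h4)]

theorem step_ineq (hg : ∀ ε, ‖RS g ε‖ ≤ 1) (p₀ : ι) {F : ℂ} (hF : 0 < F.re) :
    (Fintype.card (ι → ZMod 4) : ℝ) * (‖F‖ + 3 / 80 * ‖g p₀‖ ^ 2 * (F.re ^ 2 / ‖F‖)) ≤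
      ∑ ε : ι → ZMod 4, ‖F + ((F.re / 2 : ℝ) : ℂ) * RS g ε‖ := by
  have hre : F.re ≤ ‖F‖ := Complex.re_le_norm F
  have hFn : 0 < ‖F‖ := lt_of_lt_of_le hF hre
  have hF0 : F ≠ 0 := norm_pos_iff.1 hFn
  set κ : ℂ := ((F.re / 2 : ℝ) : ℂ) / F with hκ
  have hκn : ‖κ‖ = F.re / 2 / ‖F‖ := by
    rw [hκ, norm_div, Complex.norm_real, Real.norm_eq_abs, abs_of_pos (by positivity)]
  have hκ2 : ‖κ‖ ≤ 1 / 2 := by
    rw [hκn, div_div, div_le_div_iff₀ (by positivity) (by norm_num)]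
    linarith
  have hterm : ∀ ε : ι → ZMod 4, ‖F‖ * (1 + (κ * RS g ε).re + 3 / 10 * (κ * RS g ε).im ^ 2) ≤
      ‖F + ((F.re / 2 : ℝ) : ℂ) * RS g ε‖ := by
    intro ε
    have e : F + ((F.re / 2 : ℝ) : ℂ) * RS g ε = F * (1 + κ * RS g ε) := by
      rw [hκ]; field_simp
    rw [e, norm_mul]
    apply mul_le_mul_of_nonneg_left _ hFn.le
    apply norm_one_add
    rw [norm_mul]
    calc ‖κ‖ * ‖RS g ε‖ ≤ (1 / 2) * 1 :=
          mul_le_mul hκ2 (hg ε) (norm_nonneg _) (by norm_num)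
      _ = 1 / 2 := by norm_num
  have hsum := Finset.sum_le_sum (fun ε (_ : ε ∈ Finset.univ) => hterm ε)
  refine le_trans ?_ hsum
  rw [← Finset.mul_sum, Finset.sum_add_distrib, Finset.sum_add_distrib, sum_re, ← Finset.mul_sum,
    Finset.sum_const, Finset.card_univ, nsmul_eq_mul, mul_one, add_zero]
  have h1 : ∑ ε : ι → ZMod 4, (κ * RS g ε).im ^ 2 = 1 / 2 * ∑ ε : ι → ZMod 4, ‖κ * RS g ε‖ ^ 2 := by
    have e : ∑ ε : ι → ZMod 4, ‖κ * RS g ε‖ ^ 2 =
        ∑ ε : ι → ZMod 4, (κ * RS g ε).re ^ 2 + ∑ ε : ι → ZMod 4, (κ * RS g ε).im ^ 2 := by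
      rw [← Finset.sum_add_distrib]
      apply Finset.sum_congr rfl
      intro ε _
      exact normsq _
    rw [e, ← sum_im_sq]; ring
  have h2 : ∑ ε : ι → ZMod 4, ‖κ * RS g ε‖ ^ 2 = ‖κ‖ ^ 2 * ∑ ε : ι → ZMod 4, ‖RS g ε‖ ^ 2 := by
    rw [Finset.mul_sum]
    apply Finset.sum_congr rfl
    intro ε _
    rw [norm_mul, mul_pow]
  have h3 := sum_norm_sq g p₀
  rw [h1, h2, hκn]
  set Nn := (Fintype.card (ι → ZMod 4) : ℝ) with hN
  have h4 : (F.re / 2 / ‖F‖) ^ 2 * (Nn * ‖g p₀‖ ^ 2) ≤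
      (F.re / 2 / ‖F‖) ^ 2 * ∑ ε : ι → ZMod 4, ‖RS g ε‖ ^ 2 :=
    mul_le_mul_of_nonneg_left h3 (by positivity)
  have h5 : Nn * (‖F‖ + 3 / 80 * ‖g p₀‖ ^ 2 * (F.re ^ 2 / ‖F‖)) =
      ‖F‖ * (Nn + 3 / 10 * (1 / 2 * ((F.re / 2 / ‖F‖) ^ 2 * (Nn * ‖g p₀‖ ^ 2)))) := by
    field_simp
    ring
  rw [h5]
  apply mul_le_mul_of_nonneg_left _ hFn.le
  linarith

end avg

/-- the gain constant -/
noncomputable def c₀ : ℝ := 3 / 80 * (1 / 4096 * Real.exp (-192))

theorem c₀_pos : 0 < c₀ := by unfold c₀; positivity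

theorem exists_state (k : ℕ) : ∃ (ι : Type) (_ : Fintype ι) (_ : Nonempty ι) (F : ι → V → ℂ)
    (f : ι → MvPolynomial (Fin 2) ℂ), (∀ i, Continuous (F i)) ∧
    (∀ i, Appr (fun z => ((F i z).re : ℂ))) ∧ (∀ i, ∀ z ∈ S, 0 < (F i z).re) ∧
    (∀ i, constantCoeff (f i) = 1) ∧
    (∀ i, ∀ z ∈ S, ‖F i z - eval z (f i)‖ ≤ 1 - (1 / 2) ^ k) ∧
    (∀ z ∈ S, ∑ i, (F i z).re = Fintype.card ι) ∧
    (∀ z ∈ Om, 2 * c₀ * k * (Fintype.card ι : ℝ) ^ 2 ≤ (∑ i, ‖F i z‖) ^ 2) := by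
  induction k with
  | zero =>
    refine ⟨Unit, inferInstance, inferInstance, fun _ _ => 1, fun _ => 1, ?_, ?_, ?_, ?_, ?_, ?_, ?_⟩
    · intro _; exact continuous_const
    · intro _; simpa using Appr.one
    · intro _ z _; simp
    · intro _; simp
    · intro _ z _; simp
    · intro z _; simp
    · intro z _; simp
  | succ k ih =>
    obtain ⟨ι, hι, hne, F, f, hcont, happr, hpos, hcc, herr, hsum, hgrow⟩ := ih
    have hev : ∀ᶠ q : ℕ in Filter.atTop, ∀ i : ι, ∀ ρ : Fin q × Fin q → ℂ, (∀ p, ‖ρ p‖ ≤ 1) →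
        ∃ h : MvPolynomial (Fin 2) ℂ, constantCoeff h = 0 ∧
        ∀ z ∈ S, ‖((F i z).re : ℂ) * eval z (Gp q ρ) - eval z h‖ ≤ (1 / 2) ^ k := by
      rw [Filter.eventually_all]
      intro i
      exact (happr i).eventually (by positivity)
    obtain ⟨q, hq, hq0⟩ := (hev.and (Filter.eventually_gt_atTop 0)).exists
    have hρ : ∀ ε : Fin q × Fin q → ZMod 4, ∀ p, ‖(fun p => rt (ε p)) p‖ ≤ 1 := fun ε p => by
      simp [norm_rt]
    choose h hh0 hh using fun (x : ι × (Fin q × Fin q → ZMod 4)) =>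
      hq x.1 (fun p => rt (x.2 p)) (hρ x.2)
    let G : (Fin q × Fin q → ZMod 4) → V → ℂ := fun ε z => eval z (Gp q (fun p => rt (ε p)))
    have hGn : ∀ ε, ∀ z ∈ S, ‖G ε z‖ ≤ 1 := fun ε z hz => norm_Gp_le (hρ ε) hz
    have hGre : ∀ (x : ι × (Fin q × Fin q → ZMod 4)) (z : V),
        (F x.1 z + (((F x.1 z).re / 2 : ℝ) : ℂ) * G x.2 z).re =
          (F x.1 z).re + (F x.1 z).re / 2 * (G x.2 z).re := by
      intro x z
      rw [Complex.add_re, Complex.re_ofReal_mul]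
    have hGRS : ∀ ε z, G ε z = RS (fun p => 1 / 64 * ip z (zeta (lat q p)) ^ (192 * q ^ 2)) ε := by
      intro ε z
      exact eval_Gp _ _ _
    refine ⟨ι × (Fin q × Fin q → ZMod 4), inferInstance, inferInstance,
      fun x z => F x.1 z + (((F x.1 z).re / 2 : ℝ) : ℂ) * G x.2 z,
      fun x => f x.1 + C (1 / 2) * h x, ?_, ?_, ?_, ?_, ?_, ?_, ?_⟩
    · intro x
      have h1 : Continuous (G x.2) := MvPolynomial.continuous_eval _
      have h2 := hcont x.1
      fun_prop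
    · intro x
      have h1 := happr x.1
      have h2 := (h1.mul_poly (Gp q (fun p => rt (x.2 p)))).const_mul (1 / 4)
      have h3 := (h1.mul_conj_poly (Gp q (fun p => rt (x.2 p)))).const_mul (1 / 4)
      have h4 := (h1.add h2).add h3
      convert! h4 using 1
      ext1 z
      rw [hGre]
      push_cast
      have : ((G x.2 z).re : ℂ) = (G x.2 z + conj (G x.2 z)) / 2 := by
        rw [Complex.add_conj]; push_cast; ring
      rw [this]
      ring
    · intro x z hz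
      rw [hGre]
      have h1 := hpos x.1 z hz
      have h2 := hGn x.2 z hz
      have h3 := (abs_le.1 ((Complex.abs_re_le_norm (G x.2 z)).trans h2)).1
      nlinarith
    · intro x
      rw [map_add, map_mul, hcc, hh0, mul_zero, add_zero]
    · intro x z hz
      have h1 := herr x.1 z hz
      have h2 := hh x z hz
      have e : F x.1 z + (((F x.1 z).re / 2 : ℝ) : ℂ) * G x.2 z - eval z (f x.1 + C (1 / 2) * h x) =
          (F x.1 z - eval z (f x.1)) + 1 / 2 * (((F x.1 z).re : ℂ) * G x.2 z - eval z (h x)) := by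
        rw [map_add, map_mul, eval_C]; push_cast; ring
      rw [e]
      refine (norm_add_le _ _).trans ?_
      rw [norm_mul]
      have hn : ‖(1 / 2 : ℂ)‖ = 1 / 2 := by norm_num
      rw [hn, pow_succ]
      have h3 : ‖((F x.1 z).re : ℂ) * G x.2 z - eval z (h x)‖ ≤ (1 / 2) ^ k := h2
      linarith
    · intro z hz
      rw [← Finset.univ_product_univ, Finset.sum_product]
      have h1 : ∀ i : ι, ∑ ε : Fin q × Fin q → ZMod 4,
          (F i z + (((F i z).re / 2 : ℝ) : ℂ) * G ε z).re =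
          (Fintype.card (Fin q × Fin q → ZMod 4) : ℝ) * (F i z).re := by
        intro i
        have e := fun ε => hGre (i, ε) z
        simp only at e
        rw [Finset.sum_congr rfl (fun ε _ => e ε), Finset.sum_add_distrib, Finset.sum_const,
          Finset.card_univ, nsmul_eq_mul, ← Finset.mul_sum]
        have h2 : ∑ ε : Fin q × Fin q → ZMod 4, (G ε z).re = 0 := by
          have := sum_re (fun p => 1 / 64 * ip z (zeta (lat q p)) ^ (192 * q ^ 2)) 1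
          simp only [one_mul] at this
          rw [← this]
          apply Finset.sum_congr rfl
          intro ε _
          rw [hGRS]
        rw [h2]; ring
      rw [Finset.sum_congr rfl (fun i _ => h1 i), ← Finset.mul_sum, hsum z hz, Fintype.card_prod]
      push_cast; ring
    · intro z hz
      have hzS : z ∈ S := hz.1
      obtain ⟨p₀, hp₀⟩ := exists_near hq0 hz
      rw [← Finset.univ_product_univ, Finset.sum_product]
      set g : Fin q × Fin q → ℂ := fun p => 1 / 64 * ip z (zeta (lat q p)) ^ (192 * q ^ 2) with hg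
      have hgp : 1 / 4096 * Real.exp (-192) ≤ ‖g p₀‖ ^ 2 := by
        rw [hg]
        simp only [norm_mul, norm_pow]
        have hn : ‖(1 / 64 : ℂ)‖ = 1 / 64 := by norm_num
        rw [hn, mul_pow, ← pow_mul, mul_comm (192 * q ^ 2) 2, pow_mul]
        have := hp₀
        nlinarith
      set E := (Fintype.card (Fin q × Fin q → ZMod 4) : ℝ) with hE
      have hE0 : 0 < E := by rw [hE]; exact_mod_cast Fintype.card_pos
      have h1 : ∀ i : ι, E * (‖F i z‖ + c₀ * ((F i z).re ^ 2 / ‖F i z‖)) ≤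
          ∑ ε : Fin q × Fin q → ZMod 4, ‖F i z + (((F i z).re / 2 : ℝ) : ℂ) * G ε z‖ := by
        intro i
        have h2 := step_ineq g (fun ε => by rw [← hGRS]; exact hGn ε z hzS) p₀ (hpos i z hzS)
        have h3 : c₀ ≤ 3 / 80 * ‖g p₀‖ ^ 2 := by
          unfold c₀; linarith
        have h4 : 0 ≤ (F i z).re ^ 2 / ‖F i z‖ := by positivity
        have h5 := mul_le_mul_of_nonneg_right h3 h4
        have h6 : E * (‖F i z‖ + c₀ * ((F i z).re ^ 2 / ‖F i z‖)) ≤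
            E * (‖F i z‖ + 3 / 80 * ‖g p₀‖ ^ 2 * ((F i z).re ^ 2 / ‖F i z‖)) := by
          apply mul_le_mul_of_nonneg_left _ hE0.le
          linarith
        refine h6.trans (h2.trans (le_of_eq ?_))
        apply Finset.sum_congr rfl
        intro ε _
        rw [hGRS]
      have h2 := Finset.sum_le_sum (fun i (_ : i ∈ Finset.univ) => h1 i)
      rw [← Finset.mul_sum, Finset.sum_add_distrib, ← Finset.mul_sum] at h2
      set T := ∑ i, ‖F i z‖ with hT
      set T' := ∑ i, ∑ ε : Fin q × Fin q → ZMod 4,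
        ‖F i z + (((F i z).re / 2 : ℝ) : ℂ) * G ε z‖ with hT'
      have hFpos : ∀ i, 0 < ‖F i z‖ := fun i =>
        lt_of_lt_of_le (hpos i z hzS) (Complex.re_le_norm _)
      have hTpos : 0 < T := Finset.sum_pos (fun i _ => hFpos i) Finset.univ_nonempty
      have hCS : (Fintype.card ι : ℝ) ^ 2 / T ≤ ∑ i, (F i z).re ^ 2 / ‖F i z‖ := by
        have := Finset.sq_sum_div_le_sum_sq_div Finset.univ (fun i => (F i z).re)
          (g := fun i => ‖F i z‖) (fun i _ => hFpos i)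
        rw [hsum z hzS] at this
        exact this
      set n := (Fintype.card ι : ℝ) with hn
      have h3 : E * (T + c₀ * (n ^ 2 / T)) ≤ T' := by
        refine le_trans ?_ h2
        apply mul_le_mul_of_nonneg_left _ hE0.le
        have := mul_le_mul_of_nonneg_left hCS c₀_pos.le
        linarith
      have h4 := hgrow z hz
      have h5 : (E * (T + c₀ * (n ^ 2 / T))) ^ 2 ≤ T' ^ 2 := by
        apply pow_le_pow_left₀ _ h3
        have := c₀_pos
        positivity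
      refine le_trans ?_ h5
      rw [Fintype.card_prod]
      push_cast
      rw [← hn]
      have h6 : (E * (T + c₀ * (n ^ 2 / T))) ^ 2 = E ^ 2 * (T ^ 2 + 2 * c₀ * n ^ 2 + (c₀ * (n ^ 2 / T)) ^ 2) := by
        field_simp
        ring
      rw [h6]
      have hE2 : (((Fintype.card (Fin q × Fin q → ZMod 4) : ℕ)) : ℝ) = E := rfl
      have h7 : 2 * c₀ * ((k : ℝ) + 1) * (n * E) ^ 2 = E ^ 2 * (2 * c₀ * k * n ^ 2 + 2 * c₀ * n ^ 2) := by ring
      have h8 : 0 ≤ (c₀ * (n ^ 2 / T)) ^ 2 := by positivity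
      calc _ = 2 * c₀ * ((k : ℝ) + 1) * (n * E) ^ 2 := by
            rw [← hE2]
        _ = E ^ 2 * (2 * c₀ * k * n ^ 2 + 2 * c₀ * n ^ 2) := h7
        _ ≤ _ := by
            apply mul_le_mul_of_nonneg_left _ (by positivity)
            linarith

end Pool.Agent.RealPartL1
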